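import Mathlib
import Pool.Agent.N740.HK.Pat
import Pool.Agent.N424.SMB.Trials

/-!
# Successive trials of bounded length in a sequential model of the primes (helper538)
-/

set_option autoImplicit false
set_option linter.unusedSectionVars false

open MeasureTheory Filter Set
open scoped ENNReal Topology NNReal

namespace Pool.Agent.N538.RP

open Pool.Agent.R528.RM Pool.Agent.N740.HK

variable {Ω : Type} {m0 : MeasurableSpace Ω} {μ : Measure Ω} [IsProbabilityMeasure μ]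
  {ℱ : Filtration ℕ m0} {A : ℕ → Set Ω}

/-- At least `m` trials are made, and all of them fail.  A trial starts at a time `t` at which `W t` holds,
it lasts `g` steps and it succeeds when `D t` holds.  The second index bounds the number of steps. -/
def Fb (W D : ℕ → Set Ω) (g : ℕ) : ℕ → ℕ → ℕ → Set Ω
  | _, 0, m => {_ω | m = 0}
  | t, j + 1, m => (W t ∩ (D t)ᶜ ∩ Fb W D g (t + g) j (m - 1)) ∪ ((W t)ᶜ ∩ Fb W D g (t + 1) j m)

/-- **many trials** -/
theorem Fb_le {W D : ℕ → Set Ω} {g t₀ : ℕ} (hW : ∀ n, MeasurableSet[ℱ n] (W n))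
    (hD : ∀ n, t₀ ≤ n → MeasurableSet[ℱ (n + g)] (D n)) {p : ℝ} (hp1 : p ≤ 1) (hp0 : 0 ≤ p)
    (hyp : ∀ t, t₀ ≤ t → ∀ B, MeasurableSet[ℱ t] B → B ⊆ W t → p * μ.real B ≤ μ.real (B ∩ D t)) (j : ℕ) :
    ∀ t m, t₀ ≤ t → ∀ B, MeasurableSet[ℱ t] B → μ.real (B ∩ Fb W D g t j m) ≤ (1 - p) ^ m * μ.real B := by
  have h0 : 0 ≤ 1 - p := by linarith
  induction j with
  | zero =>
    intro t m _ B _
    by_cases hm : m = 0
    · subst hm
      rw [pow_zero, one_mul]
      exact measureReal_mono inter_subset_left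
    · have : B ∩ Fb W D g t 0 m = ∅ := by
        ext ω
        simp [Fb, hm]
      rw [this, measureReal_empty]
      have : 0 ≤ μ.real B := measureReal_nonneg
      positivity
  | succ j ih =>
    intro t m ht B hB
    have hW0 : MeasurableSet (W t) := ℱ.le _ _ (hW t)
    have hD0 : MeasurableSet (D t) := ℱ.le _ _ (hD t ht)
    have hB1m : MeasurableSet[ℱ t] (B ∩ W t) := @MeasurableSet.inter _ (ℱ t) _ _ hB (hW t)
    have hB2m : MeasurableSet[ℱ t] (B \ W t) := @MeasurableSet.diff _ (ℱ t) _ _ hB (hW t)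
    have hB1' : MeasurableSet[ℱ (t + g)] ((B ∩ W t) \ D t) :=
      @MeasurableSet.diff _ (ℱ _) _ _ (ℱ.mono (by omega) _ hB1m) (hD t ht)
    have hB2' : MeasurableSet[ℱ (t + 1)] (B \ W t) := ℱ.mono (by omega) _ hB2m
    have i1 := ih (t + g) (m - 1) (by omega) _ hB1'
    have i2 := ih (t + 1) m (by omega) _ hB2'
    have hlow := hyp t ht (B ∩ W t) hB1m inter_subset_right
    have hsplit := measureReal_inter_add_sdiff (μ := μ) (s := B ∩ W t) hD0
    have hsplitW := measureReal_inter_add_sdiff (μ := μ) (s := B) hW0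
    have hsub : B ∩ Fb W D g t (j + 1) m ⊆
        (((B ∩ W t) \ D t) ∩ Fb W D g (t + g) j (m - 1)) ∪ ((B \ W t) ∩ Fb W D g (t + 1) j m) := by
      rintro ω ⟨g1, g3⟩
      rcases g3 with ⟨⟨g4, g5⟩, g6⟩ | ⟨g4, g5⟩
      · left
        exact ⟨⟨⟨g1, g4⟩, g5⟩, g6⟩
      · right
        exact ⟨⟨g1, g4⟩, g5⟩
    have hm1 : μ.real (((B ∩ W t) \ D t) ∩ Fb W D g (t + g) j (m - 1)) ≤ (1 - p) ^ m * μ.real (B ∩ W t) := by
      have k1 : μ.real ((B ∩ W t) \ D t) ≤ (1 - p) * μ.real (B ∩ W t) := by linarith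
      have k2 : 0 ≤ μ.real (B ∩ W t) := measureReal_nonneg
      refine i1.trans ?_
      rcases Nat.eq_zero_or_pos m with hm | hm
      · subst hm
        simp only [Nat.zero_sub, pow_zero, one_mul]
        nlinarith
      · calc (1 - p) ^ (m - 1) * μ.real ((B ∩ W t) \ D t) ≤ (1 - p) ^ (m - 1) * ((1 - p) * μ.real (B ∩ W t)) :=
              mul_le_mul_of_nonneg_left k1 (pow_nonneg h0 _)
          _ = (1 - p) ^ m * μ.real (B ∩ W t) := by
              rw [← mul_assoc, ← pow_succ, Nat.sub_add_cancel hm]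
    calc μ.real (B ∩ Fb W D g t (j + 1) m)
        ≤ μ.real ((((B ∩ W t) \ D t) ∩ Fb W D g (t + g) j (m - 1)) ∪ ((B \ W t) ∩ Fb W D g (t + 1) j m)) :=
          measureReal_mono hsub
      _ ≤ μ.real (((B ∩ W t) \ D t) ∩ Fb W D g (t + g) j (m - 1)) +
            μ.real ((B \ W t) ∩ Fb W D g (t + 1) j m) := measureReal_union_le _ _
      _ ≤ (1 - p) ^ m * μ.real (B ∩ W t) + (1 - p) ^ m * μ.real (B \ W t) := add_le_add hm1 i2
      _ = (1 - p) ^ m * μ.real B := by
          rw [← mul_add, hsplitW]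

open Classical in
lemma mem_Fb {W D : ℕ → Set Ω} {g : ℕ} (hg : 1 ≤ g) (T : ℕ) (ω : Ω) (j : ℕ) : ∀ t m,
    T ≤ t + j → (∀ n, t ≤ n → ω ∈ W n → ω ∉ D n) →
    g * m ≤ ((Finset.Ico t T).filter (fun n => ω ∈ W n)).card → ω ∈ Fb W D g t j m := by
  induction j with
  | zero =>
    intro t m h1 _ h3
    rw [Finset.Ico_eq_empty (by omega)] at h3
    simp only [Finset.filter_empty, Finset.card_empty, Nat.le_zero] at h3
    rcases Nat.mul_eq_zero.1 h3 with h | h
    · omega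
    · exact h
  | succ j ih =>
    intro t m h1 h2 h3
    by_cases hw : ω ∈ W t
    · left
      have hsub : (Finset.Ico t T).filter (fun n => ω ∈ W n) ⊆
          Finset.Ico t (t + g) ∪ (Finset.Ico (t + g) T).filter (fun n => ω ∈ W n) := by
        intro x hx
        simp only [Finset.mem_filter, Finset.mem_Ico, Finset.mem_union] at hx ⊢
        by_cases hxt : x < t + g
        · exact Or.inl ⟨hx.1.1, hxt⟩
        · exact Or.inr ⟨⟨by omega, hx.1.2⟩, hx.2⟩
      have hc := (Finset.card_le_card hsub).trans (Finset.card_union_le _ _)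
      rw [Nat.card_Ico, Nat.add_sub_cancel_left] at hc
      refine ⟨⟨hw, h2 t le_rfl hw⟩, ih (t + g) (m - 1) (by omega) (fun n g1 g2 => h2 n (by omega) g2) ?_⟩
      rcases Nat.eq_zero_or_pos m with hm | hm
      · subst hm
        simp
      · obtain ⟨m', rfl⟩ : ∃ m', m = m' + 1 := ⟨m - 1, by omega⟩
        rw [Nat.add_sub_cancel]
        rw [Nat.mul_succ] at h3
        omega
    · right
      refine ⟨hw, ih (t + 1) m (by omega) (fun n g1 g2 => h2 n (by omega) g2) ?_⟩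
      refine h3.trans (Finset.card_le_card ?_)
      intro x hx
      simp only [Finset.mem_filter, Finset.mem_Ico] at hx ⊢
      refine ⟨⟨?_, hx.1.2⟩, hx.2⟩
      rcases Nat.lt_or_ge t x with h | h
      · exact h
      · have : x = t := by omega
        rw [this] at hx
        exact absurd hx.2 hw

/-- the next chosen integer after `t` is a target, at most `g` steps away; `U n` says that `n` is a target -/
def Nx (A U : ℕ → Set Ω) (t g : ℕ) : Set Ω :=
  {ω | ∃ r, 1 ≤ r ∧ r ≤ g ∧ ω ∈ U (t + r) ∧ ω ∈ A (t + r) ∧ ∀ i, 1 ≤ i → i < r → ω ∉ A (t + i)}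

/-- the pattern: `k` times not chosen, then chosen -/
def pt (k : ℕ) : List Bool := List.replicate k false ++ [true]

lemma pt_succ (k : ℕ) : pt (k + 1) = false :: pt k := by
  unfold pt
  rw [List.replicate_succ, List.cons_append]

lemma pt_len (k : ℕ) : (pt k).length = k + 1 := by
  unfold pt
  simp

lemma wt_pt (l u : ℝ) (k : ℕ) : wt l u (pt k) = (1 - u) ^ k * l := by
  induction k with
  | zero => simp [pt, wt]
  | succ k ih =>
    rw [pt_succ]
    unfold wt
    simp only [Bool.false_eq_true, if_false]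
    rw [ih, pow_succ]
    ring

lemma mem_pt {ω : Ω} (k : ℕ) : ∀ t, ω ∈ pat A t (pt k) → ω ∈ A (t + (k + 1)) ∧ ∀ i, 1 ≤ i → i < k + 1 → ω ∉ A (t + i) := by
  induction k with
  | zero =>
    intro t h
    simp only [pt, List.replicate_zero, List.nil_append, pat, if_true] at h
    exact ⟨by simpa using h.1, fun i h1 h2 => by omega⟩
  | succ k ih =>
    intro t h
    rw [pt_succ] at h
    unfold pat at h
    simp only [Bool.false_eq_true, if_false] at h
    obtain ⟨h1, h2⟩ := ih (t + 1) h.2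
    refine ⟨by rw [show t + (k + 1 + 1) = t + 1 + (k + 1) by ring]; exact h1, fun i i1 i2 => ?_⟩
    rcases Nat.lt_or_ge 1 i with hi | hi
    · have := h2 (i - 1) (by omega) (by omega)
      rwa [show t + 1 + (i - 1) = t + i by omega] at this
    · have : i = 1 := by omega
      rw [this]
      exact h.1

/-- **the probability of a success** -/
theorem Nx_ge (hA : ∀ n, MeasurableSet[ℱ n] (A n)) {V U : ℕ → Set Ω}
    (hV : ∀ n, MeasurableSet[ℱ n] (V n)) {l u : ℝ} (hl0 : 0 ≤ l) (hl1 : l ≤ 1) (hu0 : 0 ≤ u) (hu1 : u ≤ 1)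
    (t g : ℕ) (hU : ∀ r, 1 ≤ r → r ≤ g → MeasurableSet[ℱ t] (U (t + r)))
    (hbd : ∀ n, t ≤ n → n < t + g → ∀ ω, ω ∉ V n → l ≤ dens μ ℱ A n ω ∧ dens μ ℱ A n ω ≤ u)
    {B : Set Ω} (hB : MeasurableSet[ℱ t] B) (hBU : B ⊆ {ω | ∃ r, 1 ≤ r ∧ r ≤ g ∧ ω ∈ U (t + r)}) :
    (1 - u) ^ g * l * μ.real B ≤ μ.real (B ∩ (Nx A U t g ∪ WV V t g)) := by
  classical
  -- the pieces
  set Br : ℕ → Set Ω := fun r => (B ∩ U (t + r)) \ ⋃ i ∈ (Finset.Ico 1 r), U (t + i) with hBr
  have hBrm : ∀ r, 1 ≤ r → r ≤ g → MeasurableSet[ℱ t] (Br r) := by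
    intro r h1 h2
    refine @MeasurableSet.diff _ (ℱ t) _ _ (@MeasurableSet.inter _ (ℱ t) _ _ hB (hU r h1 h2)) ?_
    refine @Finset.measurableSet_biUnion _ _ (ℱ t) _ _ fun i hi => ?_
    rw [Finset.mem_Ico] at hi
    exact hU i hi.1 (by omega)
  have hcov : B ⊆ ⋃ r ∈ Finset.Icc 1 g, Br r := by
    intro ω hω
    obtain ⟨r, h1, h2, h3⟩ := hBU hω
    have hex : ∃ r, 1 ≤ r ∧ r ≤ g ∧ ω ∈ U (t + r) := ⟨r, h1, h2, h3⟩
    obtain ⟨k1, k2, k3⟩ := Nat.find_spec hex
    simp only [mem_iUnion, Finset.mem_Icc]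
    refine ⟨Nat.find hex, ⟨k1, k2⟩, ⟨hω, k3⟩, ?_⟩
    simp only [mem_iUnion, Finset.mem_Ico, not_exists]
    intro i hi hi2
    exact Nat.find_min hex hi.2 ⟨hi.1, by omega, hi2⟩
  have hdisj : ∀ r r', r < r' → 1 ≤ r → Disjoint (Br r) (Br r') := by
    intro r r' hrr h1
    rw [Set.disjoint_left]
    intro ω hω hω'
    apply hω'.2
    simp only [mem_iUnion, Finset.mem_Ico]
    exact ⟨r, ⟨h1, hrr⟩, hω.1.2⟩
  have hpiece : ∀ r ∈ Finset.Icc 1 g, (1 - u) ^ g * l * μ.real (Br r) ≤ μ.real (Br r ∩ (Nx A U t g ∪ WV V t g)) := by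
    intro r hr
    rw [Finset.mem_Icc] at hr
    obtain ⟨k, rfl⟩ : ∃ k, r = k + 1 := ⟨r - 1, by omega⟩
    have h1 := pat_ge (μ := μ) hA hV hl0 hl1 hu0 hu1 (pt k) t
      (fun n g1 g2 ω hω => hbd n g1 (by rw [pt_len] at g2; omega) ω hω) (Br (k + 1)) (hBrm _ hr.1 hr.2)
    rw [wt_pt, pt_len] at h1
    have h2 : (1 - u) ^ g * l * μ.real (Br (k + 1)) ≤ (1 - u) ^ k * l * μ.real (Br (k + 1)) := by
      apply mul_le_mul_of_nonneg_right _ measureReal_nonneg
      apply mul_le_mul_of_nonneg_right _ hl0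
      exact pow_le_pow_of_le_one (by linarith) (by linarith) (by omega)
    refine h2.trans (h1.trans (measureReal_mono ?_))
    rintro ω ⟨g1, g2⟩
    refine ⟨g1, ?_⟩
    rcases g2 with g2 | g2
    · left
      obtain ⟨g3, g4⟩ := mem_pt k t g2
      exact ⟨k + 1, by omega, hr.2, g1.1.2, g3, g4⟩
    · right
      obtain ⟨n, n1, n2, n3⟩ := g2
      exact ⟨n, n1, by omega, n3⟩
  -- the success event is not needed to be measurable: sum over the pieces
  have hsum : ∀ (n : ℕ) (X : Set Ω), ∑ r ∈ Finset.Icc 1 n, (if r ≤ g then μ.real (Br r ∩ X) else 0) ≤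
      μ.real ((⋃ r ∈ Finset.Icc 1 n, if r ≤ g then Br r else ∅) ∩ X) := by
    intro n X
    induction n with
    | zero => simp
    | succ n ih =>
      rw [Finset.sum_Icc_succ_top (by omega)]
      by_cases hn : n + 1 ≤ g
      · rw [if_pos hn]
        have hm : MeasurableSet (Br (n + 1)) := ℱ.le _ _ (hBrm _ (by omega) hn)
        have h1 := measureReal_inter_add_sdiff (μ := μ)
          (s := (⋃ r ∈ Finset.Icc 1 (n + 1), if r ≤ g then Br r else ∅) ∩ X) hm
        rw [← h1, add_comm]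
        refine add_le_add (measureReal_mono ?_) (ih.trans (measureReal_mono ?_))
        · rintro ω ⟨g1, g2⟩
          refine ⟨⟨?_, g2⟩, g1⟩
          simp only [mem_iUnion, Finset.mem_Icc]
          exact ⟨n + 1, ⟨by omega, le_rfl⟩, by rw [if_pos hn]; exact g1⟩
        · rintro ω ⟨g1, g2⟩
          simp only [mem_iUnion, Finset.mem_Icc] at g1
          obtain ⟨r, hr, g1⟩ := g1
          refine ⟨⟨?_, g2⟩, ?_⟩
          · simp only [mem_iUnion, Finset.mem_Icc]
            exact ⟨r, ⟨hr.1, by omega⟩, g1⟩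
          · rw [if_pos (by omega)] at g1
            exact Set.disjoint_left.1 (hdisj r (n + 1) (by omega) hr.1) g1
      · rw [if_neg hn, add_zero]
        refine ih.trans (measureReal_mono ?_)
        rintro ω ⟨g1, g2⟩
        simp only [mem_iUnion, Finset.mem_Icc] at g1
        obtain ⟨r, hr, g1⟩ := g1
        refine ⟨?_, g2⟩
        simp only [mem_iUnion, Finset.mem_Icc]
        exact ⟨r, ⟨hr.1, by omega⟩, g1⟩
  have h1 : μ.real B ≤ ∑ r ∈ Finset.Icc 1 g, μ.real (Br r) :=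
    (measureReal_mono hcov (measure_ne_top _ _)).trans (measureReal_biUnion_finset_le _ _)
  have h2 := hsum g (Nx A U t g ∪ WV V t g)
  have h3 : ∑ r ∈ Finset.Icc 1 g, (if r ≤ g then μ.real (Br r ∩ (Nx A U t g ∪ WV V t g)) else 0) =
      ∑ r ∈ Finset.Icc 1 g, μ.real (Br r ∩ (Nx A U t g ∪ WV V t g)) :=
    Finset.sum_congr rfl fun r hr => by rw [if_pos (Finset.mem_Icc.1 hr).2]
  have hc0 : 0 ≤ (1 - u) ^ g * l := mul_nonneg (pow_nonneg (by linarith) _) hl0
  calc (1 - u) ^ g * l * μ.real B ≤ (1 - u) ^ g * l * ∑ r ∈ Finset.Icc 1 g, μ.real (Br r) :=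
        mul_le_mul_of_nonneg_left h1 hc0
    _ = ∑ r ∈ Finset.Icc 1 g, (1 - u) ^ g * l * μ.real (Br r) := Finset.mul_sum _ _ _
    _ ≤ ∑ r ∈ Finset.Icc 1 g, μ.real (Br r ∩ (Nx A U t g ∪ WV V t g)) := Finset.sum_le_sum hpiece
    _ ≤ _ := by
      rw [← h3]
      refine h2.trans (measureReal_mono ?_)
      rintro ω ⟨g1, g2⟩
      simp only [mem_iUnion, Finset.mem_Icc] at g1
      obtain ⟨r, hr, g1⟩ := g1
      rw [if_pos hr.2] at g1
      exact ⟨g1.1.1, g2⟩

end Pool.Agent.N538.RP
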