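import Mathlib
import Pool.Agent.N538.RP.Trials

/-!
# Members of a random set whose number belongs to a given set (helper538)
-/

set_option autoImplicit false
set_option linter.unusedSectionVars false

open MeasureTheory Filter Set
open scoped ENNReal Topology NNReal

namespace Pool.Agent.N538.RP

open Pool.Agent.R528.RM Pool.Agent.N740.HK

open Classical in
/-- the members `m` of `S` such that the number of smaller members, plus `s`, is in `J` -/
def Tr (S J : Set ℕ) (s : ℕ) : Set ℕ := {m | m ∈ S ∧ Nat.count (· ∈ S) m + s ∈ J}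

/-- the iterates: `JJ S b` is the set of the values of the `b`-fold iterate of `P` -/
def JJ (S : Set ℕ) : ℕ → Set ℕ
  | 0 => {m | 1 ≤ m}
  | b + 1 => Tr S (JJ S b) 1

/-- the gaps of `J` near `x` are at most `C (log x) ^ e` -/
def Gp (e : ℕ) (J : Set ℕ) : Prop :=
  ∃ C : ℝ, 1 ≤ C ∧ ∀ᶠ x : ℕ in atTop, ∃ r : ℕ, 1 ≤ r ∧ (r : ℝ) ≤ C * Real.log x ^ e ∧ x + r ∈ J

lemma Gp_zero : Gp 0 {m | 1 ≤ m} :=
  ⟨1, le_rfl, Eventually.of_forall fun x => ⟨1, le_rfl, by simp, by simp⟩⟩

lemma log_ev (s : ℕ) : ∀ᶠ x : ℕ in atTop, 1 ≤ Real.log (x : ℝ) ∧ Real.log ((x + s : ℕ) : ℝ) ≤ 2 * Real.log x ∧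
    Real.log ((2 * x : ℕ) : ℝ) ≤ 2 * Real.log x := by
  have h1 : Tendsto (fun x : ℕ => Real.log (x : ℝ)) atTop atTop :=
    Real.tendsto_log_atTop.comp tendsto_natCast_atTop_atTop
  filter_upwards [h1.eventually_ge_atTop 1, eventually_ge_atTop (s + 2)] with x h2 h3
  have hx : (0 : ℝ) < x := by
    have : 0 < x := by omega
    exact_mod_cast this
  have e : 2 * Real.log (x : ℝ) = Real.log ((x * x : ℕ) : ℝ) := by
    push_cast
    rw [Real.log_mul hx.ne' hx.ne']
    ring
  refine ⟨h2, ?_, ?_⟩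
  · rw [e]
    apply Real.log_le_log
    · have : 0 < x + s := by omega
      exact_mod_cast this
    · have : x + s ≤ x * x := by nlinarith
      exact_mod_cast this
  · rw [e]
    apply Real.log_le_log
    · have : 0 < 2 * x := by omega
      exact_mod_cast this
    · have : 2 * x ≤ x * x := Nat.mul_le_mul_right x (by omega)
      exact_mod_cast this

open Classical in
lemma count_unb {S : Set ℕ} (hS : S.Infinite) : Tendsto (fun x => Nat.count (· ∈ S) x) atTop atTop := by
  refine tendsto_atTop.2 fun K => ?_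
  filter_upwards [eventually_ge_atTop (pn S K)] with x hx
  have h1 : Nat.count (· ∈ S) (pn S K) = K := Nat.count_nth_of_infinite (p := (· ∈ S)) hS K
  calc K = Nat.count (· ∈ S) (pn S K) := h1.symm
    _ ≤ _ := Nat.count_monotone _ hx

open Classical in
/-- the member number `i + k`, where `i` is the number of the members which are at most `x` -/
lemma nth_step {S : Set ℕ} (hS : S.Infinite) {x G : ℕ}
    (h : ∀ y, x ≤ y → y ≤ 2 * x → ∃ r, 1 ≤ r ∧ r ≤ G ∧ y + r ∈ S) (k : ℕ) : (k + 1) * G ≤ x →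
    x < pn S (Nat.count (· ∈ S) (x + 1) + k) ∧ pn S (Nat.count (· ∈ S) (x + 1) + k) ≤ x + (k + 1) * G := by
  have hlow : ∀ k, x < pn S (Nat.count (· ∈ S) (x + 1) + k) := by
    intro k
    by_contra hcon
    push Not at hcon
    have h1 : Nat.count (· ∈ S) (pn S (Nat.count (· ∈ S) (x + 1) + k)) = Nat.count (· ∈ S) (x + 1) + k :=
      Nat.count_nth_of_infinite (p := (· ∈ S)) hS _
    have h2 : Nat.count (· ∈ S) (pn S (Nat.count (· ∈ S) (x + 1) + k) + 1) = Nat.count (· ∈ S) (x + 1) + k + 1 := by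
      rw [Nat.count_succ, h1, if_pos (nth_mem hS _)]
    have h3 : Nat.count (· ∈ S) (pn S (Nat.count (· ∈ S) (x + 1) + k) + 1) ≤ Nat.count (· ∈ S) (x + 1) :=
      Nat.count_monotone _ (by omega)
    omega
  induction k with
  | zero =>
    intro _
    refine ⟨hlow 0, ?_⟩
    obtain ⟨r, h1, h2, h3⟩ := h x le_rfl (by omega)
    have h4 : Nat.count (· ∈ S) (x + 1) ≤ Nat.count (· ∈ S) (x + r) := Nat.count_monotone _ (by omega)
    have h5 : pn S (Nat.count (· ∈ S) (x + r)) = x + r := Nat.nth_count (p := (· ∈ S)) h3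
    have h6 : pn S (Nat.count (· ∈ S) (x + 1) + 0) ≤ x + r := by
      rw [← h5]
      exact (nth_mono hS).monotone (by omega)
    omega
  | succ k ih =>
    intro hk
    have hk' : (k + 1) * G + G ≤ x := by
      rw [show (k + 1 + 1) * G = (k + 1) * G + G by ring] at hk
      exact hk
    obtain ⟨h1, h2⟩ := ih (by omega)
    refine ⟨hlow _, ?_⟩
    obtain ⟨r, r1, r2, r3⟩ := h (pn S (Nat.count (· ∈ S) (x + 1) + k)) h1.le (by omega)
    have h4 := next_le hS (n := Nat.count (· ∈ S) (x + 1) + (k + 1)) (by omega) r3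
      (by rw [show Nat.count (· ∈ S) (x + 1) + (k + 1) - 1 = Nat.count (· ∈ S) (x + 1) + k by omega]; omega)
    rw [show (k + 1 + 1) * G = (k + 1) * G + G by ring]
    omega

/-- **the gaps of the members with prescribed numbers** -/
theorem Gp_step {S J : Set ℕ} (hS : S.Infinite) (hup : Up S) {e : ℕ} (hJ : Gp e J) {s : ℕ} (hs : 1 ≤ s) :
    Gp (e + 2) (Tr S J s) := by
  classical
  obtain ⟨C, hC, hJ⟩ := hJ
  have hC0 : 0 ≤ C := by linarith
  refine ⟨C * 2 ^ e * 8, ?_, ?_⟩
  · have : (1 : ℝ) ≤ 2 ^ e := one_le_pow₀ (by norm_num)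
    nlinarith
  obtain ⟨x₀, hx₀⟩ := eventually_atTop.1 (hup 2 (by norm_num))
  obtain ⟨j₀, hj₀⟩ := eventually_atTop.1 hJ
  have hsmall := (Real.isLittleO_pow_log_id_atTop (n := e + 2)).def (show (0 : ℝ) < 1 / (C * 2 ^ e * 8) by positivity)
  filter_upwards [log_ev s, (count_unb hS).eventually_ge_atTop j₀, tendsto_natCast_atTop_atTop.eventually hsmall,
    eventually_ge_atTop (x₀ + 2)] with x h1 h2 h3 h4
  obtain ⟨l1, l2, l3⟩ := h1
  have hx0 : (0 : ℝ) < x := by
    have : 0 < x := by omega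
    exact_mod_cast this
  simp only [id] at h3
  rw [Real.norm_of_nonneg (by positivity), Real.norm_of_nonneg hx0.le, div_mul_eq_mul_div, one_mul,
    le_div_iff₀ (by positivity)] at h3
  obtain ⟨i, hi⟩ : ∃ i, i = Nat.count (· ∈ S) (x + 1) := ⟨_, rfl⟩
  have hi1 : j₀ ≤ i := by
    rw [hi]
    exact h2.trans (Nat.count_monotone _ (by omega))
  have hi2 : i ≤ x + 1 := by
    rw [hi]
    exact Nat.count_le _
  obtain ⟨r, r1, r2, r3⟩ := hj₀ (i + s - 1) (by omega)
  -- the gaps
  obtain ⟨G, hG⟩ : ∃ G, G = ⌊8 * Real.log x ^ 2⌋₊ := ⟨_, rfl⟩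
  have hGle : (G : ℝ) ≤ 8 * Real.log x ^ 2 := by
    rw [hG]
    exact Nat.floor_le (by positivity)
  have hstep : ∀ y, x ≤ y → y ≤ 2 * x → ∃ r, 1 ≤ r ∧ r ≤ G ∧ y + r ∈ S := by
    intro y y1 y2
    obtain ⟨r, q1, q2, q3⟩ := hx₀ y (by omega)
    refine ⟨r, q1, ?_, q3⟩
    rw [hG]
    apply Nat.le_floor
    refine q2.trans ?_
    have hy0 : (0 : ℝ) < y := by
      have : 0 < y := by omega
      exact_mod_cast this
    have k1 : Real.log y ≤ 2 * Real.log x := by
      refine le_trans ?_ l3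
      exact Real.log_le_log hy0 (by exact_mod_cast y2)
    have k2 : 0 ≤ Real.log (y : ℝ) := Real.log_natCast_nonneg y
    nlinarith
  have hlogi : Real.log ((i + s - 1 : ℕ) : ℝ) ≤ 2 * Real.log x := by
    refine le_trans ?_ l2
    rcases Nat.eq_zero_or_pos (i + s - 1) with h0 | h0
    · rw [h0, Nat.cast_zero, Real.log_zero]
      exact Real.log_natCast_nonneg _
    · apply Real.log_le_log (by exact_mod_cast h0)
      have : i + s - 1 ≤ x + s := by omega
      exact_mod_cast this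
  have hr4 : (r : ℝ) ≤ C * (2 * Real.log x) ^ e := by
    refine r2.trans (mul_le_mul_of_nonneg_left ?_ hC0)
    exact pow_le_pow_left₀ (Real.log_natCast_nonneg _) hlogi e
  have hrG : ((r * G : ℕ) : ℝ) ≤ C * 2 ^ e * 8 * Real.log x ^ (e + 2) := by
    push_cast
    calc (r : ℝ) * G ≤ (C * (2 * Real.log x) ^ e) * (8 * Real.log x ^ 2) :=
          mul_le_mul hr4 hGle (Nat.cast_nonneg _) (by positivity)
      _ = _ := by rw [mul_pow]; ring
  have hrGx : r * G ≤ x := by
    have : ((r * G : ℕ) : ℝ) ≤ x := by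
      refine hrG.trans ?_
      linarith
    exact_mod_cast this
  obtain ⟨k, rfl⟩ : ∃ k, r = k + 1 := ⟨r - 1, by omega⟩
  obtain ⟨n1, n2⟩ := nth_step hS hstep k hrGx
  rw [← hi] at n1 n2
  refine ⟨pn S (i + k) - x, by omega, ?_, ?_⟩
  · refine le_trans ?_ hrG
    have : pn S (i + k) - x ≤ (k + 1) * G := by omega
    exact_mod_cast this
  · rw [show x + (pn S (i + k) - x) = pn S (i + k) by omega]
    refine ⟨nth_mem hS _, ?_⟩
    have e1 : Nat.count (· ∈ S) (pn S (i + k)) = i + k := Nat.count_nth_of_infinite (p := (· ∈ S)) hS _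
    rw [e1]
    rwa [show i + k + s = i + s - 1 + (k + 1) by omega]

lemma Gp_JJ {S : Set ℕ} (hS : S.Infinite) (hup : Up S) (b : ℕ) : Gp (2 * b) (JJ S b) := by
  induction b with
  | zero => exact Gp_zero
  | succ b ih => exact Gp_step hS hup ih le_rfl

/-- many elements in a window -/
lemma many {T : Set ℕ} {x D : ℕ} (k : ℕ) (h : ∀ y, x ≤ y → y ≤ x + k * D → ∃ r, 1 ≤ r ∧ r ≤ D ∧ y + r ∈ T) :
    ∃ F : Finset ℕ, F.card = k ∧ ∀ n ∈ F, x < n ∧ n ≤ x + k * D ∧ n ∈ T := by
  classical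
  induction k with
  | zero => exact ⟨∅, rfl, by simp⟩
  | succ k ih =>
    have e : (k + 1) * D = k * D + D := by ring
    obtain ⟨F, h1, h2⟩ := ih (fun y y1 y2 => h y y1 (by rw [e]; omega))
    obtain ⟨r, r1, r2, r3⟩ := h (x + k * D) (by omega) (by rw [e]; omega)
    have hn : x + k * D + r ∉ F := fun hF => by
      have := (h2 _ hF).2.1
      omega
    refine ⟨insert (x + k * D + r) F, by rw [Finset.card_insert_of_notMem hn, h1], ?_⟩
    intro n hn
    rw [Finset.mem_insert] at hn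
    rw [e]
    rcases hn with rfl | hn
    · exact ⟨by omega, by omega, r3⟩
    · obtain ⟨g1, g2, g3⟩ := h2 n hn
      exact ⟨g1, by omega, g3⟩

/-- the values of the iterates -/
lemma JJ_val {S : Set ℕ} (b : ℕ) : ∀ m ∈ JJ S b, ∃ x : ℕ, 1 ≤ x ∧ (fun m => Nat.nth (· ∈ S) (m - 1))^[b] x = m := by
  classical
  induction b with
  | zero => exact fun m hm => ⟨m, hm, rfl⟩
  | succ b ih =>
    rintro m ⟨hm, hm2⟩
    obtain ⟨x, hx, hx2⟩ := ih _ hm2
    refine ⟨x, hx, ?_⟩
    rw [Function.iterate_succ_apply', hx2]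
    simp only [Nat.add_sub_cancel]
    exact Nat.nth_count (p := (· ∈ S)) hm

open Classical in
lemma count_next {S : Set ℕ} {t r : ℕ} (ht : t ∈ S) (hr : 1 ≤ r) (h : ∀ i, 1 ≤ i → i < r → t + i ∉ S) :
    Nat.count (· ∈ S) (t + r) = Nat.count (· ∈ S) t + 1 := by
  induction r with
  | zero => omega
  | succ r ih =>
    rcases Nat.eq_zero_or_pos r with h0 | h0
    · subst h0
      rw [zero_add, Nat.count_succ, if_pos ht]
    · rw [← add_assoc, Nat.count_succ, if_neg (h r h0 (by omega)), add_zero]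
      exact ih h0 (fun i i1 i2 => h i i1 (by omega))

open Classical in
/-- if infinitely many integers are missing then the counting function is smaller than `t - b` -/
lemma count_small {S : Set ℕ} (h : (Sᶜ).Infinite) (b : ℕ) : ∀ᶠ t : ℕ in atTop, Nat.count (· ∈ S) t + b ≤ t := by
  obtain ⟨T, hT⟩ : ∃ T, T = Sᶜ := ⟨_, rfl⟩
  rw [← hT] at h
  have h1 : ∀ t, Nat.count (· ∈ S) t + Nat.count (· ∈ T) t = t := by
    intro t
    induction t with
    | zero => simp
    | succ t ih =>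
      rw [Nat.count_succ, Nat.count_succ]
      by_cases ht : t ∈ S
      · rw [if_pos ht, if_neg (by rw [hT]; simpa using ht)]
        omega
      · rw [if_neg ht, if_pos (by rw [hT]; simpa using ht)]
        omega
  filter_upwards [(count_unb h).eventually_ge_atTop b] with t ht
  have := h1 t
  omega

lemma compl_inf {S : Set ℕ} (h : Low S) : (Sᶜ).Infinite := by
  refine infinite_of fun K => ?_
  have h1 := h (1 / 2) (by norm_num) (by norm_num)
  have h2 : Tendsto (fun i : ℕ => Real.log ((2 : ℝ) ^ i)) atTop atTop :=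
    Real.tendsto_log_atTop.comp (tendsto_pow_atTop_atTop_of_one_lt (by norm_num))
  have h3 : Tendsto (fun i : ℕ => 2 ^ i) atTop atTop := tendsto_pow_atTop_atTop_of_one_lt (by norm_num)
  obtain ⟨i, g1, g2, g3⟩ := (h1.and ((h2.eventually_ge_atTop 2).and (h3.eventually_ge_atTop K))).exists
  obtain ⟨P, p1, p2, p3, p4, p5⟩ := g1 2 (by norm_num) (by push_cast; nlinarith)
  exact ⟨P + 1, by omega, p4 1 le_rfl (by norm_num)⟩

end Pool.Agent.N538.RP
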