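import Mathlib
import Pool.Agent.N538.RP.Idx

/-!
# The events and their probabilities (helper538)
-/

set_option autoImplicit false
set_option linter.unusedSectionVars false

open MeasureTheory Filter Set
open scoped ENNReal Topology NNReal

namespace Pool.Agent.N538.RP

open Pool.Agent.R528.RM Pool.Agent.N740.HK Pool.Agent.N424.SMB

variable {Ω : Type} {m0 : MeasurableSpace Ω} {μ : Measure Ω} [IsProbabilityMeasure μ]
  {ℱ : Filtration ℕ m0} {A : ℕ → Set Ω}

open Classical in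
lemma JJ_meas (hA : ∀ n, MeasurableSet[ℱ n] (A n)) (b : ℕ) : ∀ c s, c + b ≤ s + 1 →
    MeasurableSet[ℱ s] {ω | c ∈ JJ {m | ω ∈ A m} b} := by
  induction b with
  | zero =>
    intro c s _
    show MeasurableSet[ℱ s] {_ω : Ω | 1 ≤ c}
    exact @MeasurableSet.const _ (ℱ s) _
  | succ b ih =>
    intro c s hs
    have e : {ω | c ∈ JJ {m | ω ∈ A m} (b + 1)} = A c ∩ ⋃ i ∈ Finset.range (c + 1),
        ({ω | Nat.count (fun k => ω ∈ A k) c = i} ∩ {ω | i + 1 ∈ JJ {m | ω ∈ A m} b}) := by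
      ext ω
      simp only [mem_inter_iff, mem_iUnion, Finset.mem_range, mem_ofPred_eq]
      constructor
      · rintro ⟨h1, h2⟩
        refine ⟨h1, Nat.count (fun k => ω ∈ A k) c, ?_, rfl, h2⟩
        have := Nat.count_le (p := fun k => ω ∈ A k) (n := c)
        omega
      · rintro ⟨h1, i, _, h3, h4⟩
        refine ⟨h1, ?_⟩
        rw [← h3] at h4
        exact h4
    rw [e]
    refine @MeasurableSet.inter _ (ℱ s) _ _ (ℱ.mono (by omega) _ (hA c)) ?_
    refine @Finset.measurableSet_biUnion _ _ (ℱ s) _ _ fun i hi => ?_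
    rw [Finset.mem_range] at hi
    exact @MeasurableSet.inter _ (ℱ s) _ _ (count_meas hA c s (by omega) i) (ih (i + 1) s (by omega))

/-- the targets -/
def UU (A : ℕ → Set Ω) (a N : ℕ) (n : ℕ) : Set Ω := {ω | n ≤ N ∧ N - n ∈ JJ {m | ω ∈ A m} (a + 1)}

lemma UU_meas (hA : ∀ n, MeasurableSet[ℱ n] (A n)) {a N n s : ℕ} (h : N - n + a ≤ s) :
    MeasurableSet[ℱ s] (UU A a N n) := by
  have h1 := JJ_meas hA (a + 1) (N - n) s (by omega)
  have h2 : MeasurableSet[ℱ s] {_ω : Ω | n ≤ N} := @MeasurableSet.const _ (ℱ s) _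
  exact @MeasurableSet.inter _ (ℱ s) _ _ h2 h1

open Classical in
/-- the starts of the trials -/
def WW' (A : ℕ → Set Ω) (a b N g t₀ T : ℕ) (t : ℕ) : Set Ω :=
  {ω | (t₀ ≤ t ∧ t < T) ∧ (ω ∈ A t ∧ (Nat.count (fun k => ω ∈ A k) t + 2 ∈ JJ {m | ω ∈ A m} b ∧
    Nat.count (fun k => ω ∈ A k) t + b + 1 ≤ t)) ∧ ∃ r, 1 ≤ r ∧ r ≤ g ∧ ω ∈ UU A a N (t + r)}

open Classical in
lemma WW'_meas (hA : ∀ n, MeasurableSet[ℱ n] (A n)) {a b N g t₀ T : ℕ} (h : N + 2 * a ≤ 2 * t₀) (t : ℕ) :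
    MeasurableSet[ℱ t] (WW' A a b N g t₀ T t) := by
  by_cases ht : t₀ ≤ t
  · have e : WW' A a b N g t₀ T t = {_ω : Ω | t₀ ≤ t ∧ t < T} ∩ ((A t ∩ ⋃ i ∈ Finset.range (t + 1),
        ({ω | Nat.count (fun k => ω ∈ A k) t = i} ∩ (if i + b + 1 ≤ t then {ω | i + 2 ∈ JJ {m | ω ∈ A m} b} else ∅))) ∩
        ⋃ r ∈ Finset.Icc 1 g, UU A a N (t + r)) := by
      ext ω
      simp only [WW', mem_inter_iff, mem_iUnion, Finset.mem_range, mem_ofPred_eq, Finset.mem_Icc]
      constructor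
      · rintro ⟨h1, ⟨h2, h3, h4⟩, r, r1, r2, r3⟩
        refine ⟨h1, ⟨h2, Nat.count (fun k => ω ∈ A k) t, ?_, rfl, ?_⟩, r, ⟨r1, r2⟩, r3⟩
        · have := Nat.count_le (p := fun k => ω ∈ A k) (n := t)
          omega
        · rw [if_pos h4]
          exact h3
      · rintro ⟨h1, ⟨h2, i, _, h4, h5⟩, r, ⟨r1, r2⟩, r3⟩
        by_cases hi : i + b + 1 ≤ t
        · rw [if_pos hi] at h5
          rw [← h4] at h5 hi
          exact ⟨h1, ⟨h2, h5, hi⟩, r, r1, r2, r3⟩
        · rw [if_neg hi] at h5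
          exact absurd h5 (notMem_empty ω)
    rw [e]
    refine @MeasurableSet.inter _ (ℱ t) _ _ (@MeasurableSet.const _ (ℱ t) _) ?_
    refine @MeasurableSet.inter _ (ℱ t) _ _ (@MeasurableSet.inter _ (ℱ t) _ _ (hA t) ?_) ?_
    · refine @Finset.measurableSet_biUnion _ _ (ℱ t) _ _ fun i _ => ?_
      refine @MeasurableSet.inter _ (ℱ t) _ _ (count_meas hA t t (by omega) i) ?_
      by_cases hi : i + b + 1 ≤ t
      · rw [if_pos hi]
        exact JJ_meas hA b (i + 2) t (by omega)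
      · rw [if_neg hi]
        exact @MeasurableSet.empty _ (ℱ t)
    · refine @Finset.measurableSet_biUnion _ _ (ℱ t) _ _ fun r hr => ?_
      rw [Finset.mem_Icc] at hr
      exact UU_meas hA (by omega)
  · have e : WW' A a b N g t₀ T t = ∅ := by
      ext ω
      simp only [WW', mem_ofPred_eq, mem_empty_iff_false, iff_false]
      rintro ⟨⟨h1, _⟩, _⟩
      exact ht h1
    rw [e]
    exact @MeasurableSet.empty _ (ℱ t)

/-- success or violation -/
def DD' (μ : Measure Ω) (ℱ : Filtration ℕ m0) (A : ℕ → Set Ω) (a N g : ℕ) (t : ℕ) : Set Ω :=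
  Nx A (UU A a N) t g ∪ WV (VF μ ℱ A (1 / 2)) t g

lemma DD'_meas (hA : ∀ n, MeasurableSet[ℱ n] (A n)) {a N g t₀ : ℕ} (h : N + 2 * a ≤ 2 * t₀) (t : ℕ) (ht : t₀ ≤ t) :
    MeasurableSet[ℱ (t + g)] (DD' μ ℱ A a N g t) := by
  refine @MeasurableSet.union _ (ℱ (t + g)) _ _ ?_ (WV_meas (fun n => VF_meas (1 / 2) n) t g)
  have e : Nx A (UU A a N) t g = ⋃ r ∈ Finset.Icc 1 g,
      ((UU A a N (t + r) ∩ A (t + r)) ∩ ⋂ i ∈ Finset.Ico 1 r, (A (t + i))ᶜ) := by
    ext ω
    simp only [Nx, mem_inter_iff, mem_iUnion, mem_iInter, mem_ofPred_eq, Finset.mem_Icc, Finset.mem_Ico,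
      mem_compl_iff]
    constructor
    · rintro ⟨r, r1, r2, r3, r4, r5⟩
      exact ⟨r, ⟨r1, r2⟩, ⟨r3, r4⟩, fun i hi => r5 i hi.1 hi.2⟩
    · rintro ⟨r, ⟨r1, r2⟩, ⟨r3, r4⟩, r5⟩
      exact ⟨r, r1, r2, r3, r4, fun i i1 i2 => r5 i ⟨i1, i2⟩⟩
  rw [e]
  refine @Finset.measurableSet_biUnion _ _ (ℱ (t + g)) _ _ fun r hr => ?_
  rw [Finset.mem_Icc] at hr
  refine @MeasurableSet.inter _ (ℱ (t + g)) _ _ (@MeasurableSet.inter _ (ℱ (t + g)) _ _ ?_ ?_) ?_
  · exact UU_meas hA (by omega)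
  · exact ℱ.mono (by omega) _ (hA _)
  · refine @Finset.measurableSet_biInter _ _ (ℱ (t + g)) _ _ fun i hi => ?_
    rw [Finset.mem_Ico] at hi
    exact @MeasurableSet.compl _ _ (ℱ (t + g)) (ℱ.mono (by omega) _ (hA _))

/-- **the probability that all trials fail** -/
theorem fail_le (hA : ∀ n, MeasurableSet[ℱ n] (A n)) {a b N g t₀ T j m : ℕ} {ell : ℝ} (h : N + 2 * a ≤ 2 * t₀)
    (hell : 4 ≤ ell) (hg : (g : ℝ) ≤ ell / 4) (hlog : ∀ n : ℕ, t₀ ≤ n → n < T + g → ell - 1 ≤ Real.log n ∧ Real.log n ≤ ell) :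
    μ.real (Fb (WW' A a b N g t₀ T) (DD' μ ℱ A a N g) g t₀ j m) ≤ (1 - 1 / (4 * ell)) ^ m := by
  have hell0 : 0 < ell := by linarith
  have hp0 : 0 ≤ 1 / (4 * ell) := by positivity
  have hp1 : 1 / (4 * ell) ≤ 1 := by
    rw [div_le_one (by positivity)]
    linarith
  have key : ∀ t, t₀ ≤ t → ∀ B, MeasurableSet[ℱ t] B → B ⊆ WW' A a b N g t₀ T t →
      1 / (4 * ell) * μ.real B ≤ μ.real (B ∩ DD' μ ℱ A a N g t) := by
    intro t ht B hB hBW
    by_cases htT : t < T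
    · have hl0 : (0 : ℝ) ≤ 1 / (2 * ell) := by positivity
      have hl1 : 1 / (2 * ell) ≤ 1 := by
        rw [div_le_one (by positivity)]
        linarith
      have hu0 : (0 : ℝ) ≤ 2 / ell := by positivity
      have hu1 : 2 / ell ≤ 1 := by
        rw [div_le_one hell0]
        linarith
      have h1 := Nx_ge (μ := μ) hA (V := VF μ ℱ A (1 / 2)) (U := UU A a N) (fun n => VF_meas (1 / 2) n)
        hl0 hl1 hu0 hu1 t g (fun r r1 r2 => UU_meas hA (by omega)) ?_ hB ?_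
      · refine le_trans ?_ h1
        apply mul_le_mul_of_nonneg_right _ measureReal_nonneg
        have h2 : 1 / 2 ≤ (1 - 2 / ell) ^ g := by
          have h3 := one_add_mul_le_pow (a := -(2 / ell)) (by linarith) g
          have h4 : (g : ℝ) * (2 / ell) ≤ 1 / 2 := by
            rw [← mul_div_assoc, div_le_iff₀ hell0]
            linarith
          have h5 : (1 : ℝ) + -(2 / ell) = 1 - 2 / ell := by ring
          rw [h5] at h3
          linarith
        calc 1 / (4 * ell) = 1 / 2 * (1 / (2 * ell)) := by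
              field_simp
              norm_num
          _ ≤ _ := mul_le_mul_of_nonneg_right h2 hl0
      · intro n n1 n2 ω hω
        obtain ⟨k1, k2⟩ := hlog n (by omega) (by omega)
        obtain ⟨k3, k4⟩ := VF_bounds (L := ell - 1) (by norm_num) (by linarith) k1 (by linarith) hω
        constructor
        · refine le_trans (le_of_eq ?_) k3
          rw [sub_add_cancel]
          field_simp
          norm_num
        · refine k4.trans ?_
          rw [div_le_div_iff₀ (by linarith) hell0]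
          linarith
      · intro ω hω
        exact (hBW hω).2.2
    · have : B = ∅ := by
        refine Set.eq_empty_of_forall_notMem fun ω hω => htT (hBW hω).1.2
      rw [this, empty_inter, measureReal_empty, mul_zero]
  have h1 := Fb_le (μ := μ) (W := WW' A a b N g t₀ T) (D := DD' μ ℱ A a N g) (g := g) (t₀ := t₀)
    (fun n => WW'_meas hA h n) (fun n hn => DD'_meas hA h n hn) hp1 hp0 key j t₀ m le_rfl univ
    (@MeasurableSet.univ _ (ℱ _))
  rwa [univ_inter, probReal_univ, mul_one] at h1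

end Pool.Agent.N538.RP
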