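import Mathlib
import Pool.Agent.N538.RP.Ev

/-!
# Sums of two iterated prime indexed primes in sequential models of the primes (helper538)
-/

set_option autoImplicit false
set_option linter.unusedSectionVars false

open MeasureTheory Filter Set
open scoped ENNReal Topology NNReal

namespace Pool.Agent.N538.RP

open Pool.Agent.R528.RM Pool.Agent.N740.HK Pool.Agent.N424.SMB

variable {Ω : Type} {m0 : MeasurableSpace Ω} {μ : Measure Ω} [IsProbabilityMeasure μ]
  {ℱ : Filtration ℕ m0} {A : ℕ → Set Ω}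

/-- the length of the window -/
noncomputable def Lw (b N : ℕ) : ℕ := ⌊Real.log N ^ (2 * b + 6)⌋₊

/-- the length of a trial -/
noncomputable def gg (N : ℕ) : ℕ := ⌊Real.log N / 4⌋₊

/-- the number of the trials -/
noncomputable def mm (N : ℕ) : ℕ := ⌈8 * Real.log N ^ 2⌉₊

/-- all trials fail -/
noncomputable def FE (μ : Measure Ω) (ℱ : Filtration ℕ m0) (A : ℕ → Set Ω) (a b N : ℕ) : Set Ω :=
  Fb (WW' A a b N (gg N) (N - Lw b N) (N - 3 * gg N)) (DD' μ ℱ A a N (gg N)) (gg N) (N - Lw b N) (Lw b N) (mm N)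

lemma tlog : Tendsto (fun x : ℕ => Real.log (x : ℝ)) atTop atTop :=
  Real.tendsto_log_atTop.comp tendsto_natCast_atTop_atTop

/-- the window is short -/
lemma Lw_small (b c : ℕ) : ∀ᶠ N : ℕ in atTop, 2 * Lw b N + c ≤ N := by
  have hsmall := (Real.isLittleO_pow_log_id_atTop (n := 2 * b + 6)).def (show (0 : ℝ) < 1 / 4 by norm_num)
  filter_upwards [tendsto_natCast_atTop_atTop.eventually hsmall, eventually_ge_atTop (2 * c), tlog.eventually_ge_atTop 1]
    with N h1 h2 h3
  have hN0 : (0 : ℝ) ≤ N := Nat.cast_nonneg N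
  simp only [id] at h1
  rw [Real.norm_of_nonneg (by positivity), Real.norm_of_nonneg hN0] at h1
  have h4 : (Lw b N : ℝ) ≤ Real.log N ^ (2 * b + 6) := Nat.floor_le (by positivity)
  have h5 : (4 * Lw b N : ℝ) ≤ N := by linarith
  have h6 : 4 * Lw b N ≤ N := by exact_mod_cast h5
  omega

lemma log_half {N n : ℕ} (h : N ≤ 2 * n) (hN : 1 ≤ N) : Real.log N - 1 ≤ Real.log n := by
  have h1 : (0 : ℝ) < N := by exact_mod_cast hN
  have h2 : (0 : ℝ) < n := by
    have : 0 < n := by omega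
    exact_mod_cast this
  have h3 : Real.log N ≤ Real.log (2 * (n : ℝ)) := Real.log_le_log h1 (by exact_mod_cast h)
  rw [Real.log_mul (by norm_num) h2.ne'] at h3
  have := Real.log_two_lt_d9
  linarith

theorem FE_le (hA : ∀ n, MeasurableSet[ℱ n] (A n)) (a b : ℕ) :
    ∀ᶠ N : ℕ in atTop, μ.real (FE μ ℱ A a b N) ≤ 1 / (N : ℝ) ^ 2 := by
  filter_upwards [Lw_small b (2 * a + 10), tlog.eventually_ge_atTop 4] with N h1 h2
  have hN0 : (0 : ℝ) < N := by
    have : 0 < N := by omega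
    exact_mod_cast this
  obtain ⟨ell, hell⟩ : ∃ ell, ell = Real.log (N : ℝ) := ⟨_, rfl⟩
  rw [← hell] at h2
  have hg : (gg N : ℝ) ≤ ell / 4 := by
    rw [gg, ← hell]
    exact Nat.floor_le (by linarith)
  have hlog : ∀ n : ℕ, N - Lw b N ≤ n → n < N - 3 * gg N + gg N → ell - 1 ≤ Real.log n ∧ Real.log n ≤ ell := by
    intro n n1 n2
    have hn : N ≤ 2 * n := by omega
    refine ⟨by rw [hell]; exact log_half hn (by omega), ?_⟩
    rw [hell]
    have hgN : 3 * gg N ≤ N := by
      by_contra hcon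
      have h3 : (N : ℝ) ≤ 3 * gg N := by
        have : N ≤ 3 * gg N := by omega
        exact_mod_cast this
      have h4 : Real.log (N : ℝ) ≤ N - 1 := Real.log_le_sub_one_of_pos hN0
      rw [← hell] at h4
      linarith
    apply Real.log_le_log
    · have : 0 < n := by omega
      exact_mod_cast this
    · have : n ≤ N := by omega
      exact_mod_cast this
  have h3 := fail_le (μ := μ) hA (a := a) (b := b) (N := N) (g := gg N) (t₀ := N - Lw b N) (T := N - 3 * gg N)
    (j := Lw b N) (m := mm N) (ell := ell) (by omega) h2 hg hlog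
  refine h3.trans ?_
  have hell0 : 0 < ell := by linarith
  have hm : 8 * ell ^ 2 ≤ (mm N : ℝ) := by
    rw [mm, ← hell]
    exact Nat.le_ceil _
  have hp : 0 ≤ 1 - 1 / (4 * ell) := by
    have : 1 / (4 * ell) ≤ 1 := by
      rw [div_le_one (by positivity)]
      linarith
    linarith
  calc (1 - 1 / (4 * ell)) ^ mm N ≤ Real.exp (-(1 / (4 * ell))) ^ mm N := by
        apply pow_le_pow_left₀ hp
        have := Real.add_one_le_exp (-(1 / (4 * ell)))
        linarith
    _ = Real.exp (-((mm N : ℝ) / (4 * ell))) := by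
        rw [← Real.exp_nat_mul]
        congr 1
        ring
    _ ≤ Real.exp (-(2 * ell)) := by
        apply Real.exp_le_exp.2
        have : 2 * ell ≤ (mm N : ℝ) / (4 * ell) := by
          rw [le_div_iff₀ (by positivity)]
          nlinarith
        linarith
    _ = 1 / (N : ℝ) ^ 2 := by
        rw [Real.exp_neg, two_mul, Real.exp_add, hell, Real.exp_log hN0, one_div]
        congr 1
        ring

/-- the trials fit into the window -/
lemma fit (b : ℕ) {C : ℝ} (hC : 1 ≤ C) : ∀ᶠ N : ℕ in atTop,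
    gg N * mm N * ⌊C * Real.log N ^ (2 * b + 2)⌋₊ + 3 * gg N + 1 ≤ Lw b N := by
  filter_upwards [tlog.eventually_ge_atTop (10 * C)] with N h1
  obtain ⟨ell, hell⟩ : ∃ ell, ell = Real.log (N : ℝ) := ⟨_, rfl⟩
  rw [← hell] at h1
  have hell1 : 10 ≤ ell := by linarith
  have hell0 : 0 < ell := by linarith
  have hg : (gg N : ℝ) ≤ ell / 4 := by
    rw [gg, ← hell]
    exact Nat.floor_le (by linarith)
  have hm : (mm N : ℝ) ≤ 8 * ell ^ 2 + 1 := by
    rw [mm, ← hell]
    exact (Nat.ceil_lt_add_one (by positivity)).le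
  have hD : (⌊C * Real.log N ^ (2 * b + 2)⌋₊ : ℝ) ≤ C * ell ^ (2 * b + 2) := by
    rw [← hell]
    exact Nat.floor_le (by positivity)
  have hp1 : 1 ≤ ell ^ (2 * b + 2) := one_le_pow₀ (by linarith)
  have key : ((gg N * mm N * ⌊C * Real.log N ^ (2 * b + 2)⌋₊ + 3 * gg N + 1 : ℕ) : ℝ) ≤ ell ^ (2 * b + 6) := by
    push_cast
    have k1 : (gg N : ℝ) * mm N ≤ ell / 4 * (8 * ell ^ 2 + 1) := mul_le_mul hg hm (Nat.cast_nonneg _) (by positivity)
    have k2 : (gg N : ℝ) * mm N * (⌊C * Real.log N ^ (2 * b + 2)⌋₊ : ℝ) ≤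
        ell / 4 * (8 * ell ^ 2 + 1) * (C * ell ^ (2 * b + 2)) :=
      mul_le_mul k1 hD (Nat.cast_nonneg _) (by positivity)
    have k3 : ell / 4 * (8 * ell ^ 2 + 1) * C ≤ ell ^ 4 / 2 := by
      have q1 : C ≤ ell / 10 := by linarith
      have q2 : ell / 4 * (8 * ell ^ 2 + 1) * C ≤ ell / 4 * (8 * ell ^ 2 + 1) * (ell / 10) :=
        mul_le_mul_of_nonneg_left q1 (by positivity)
      nlinarith [sq_nonneg ell, pow_pos hell0 3, mul_pos hell0 hell0]
    have k4 : ell / 4 * (8 * ell ^ 2 + 1) * (C * ell ^ (2 * b + 2)) ≤ ell ^ 4 / 2 * ell ^ (2 * b + 2) := by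
      rw [← mul_assoc]
      exact mul_le_mul_of_nonneg_right k3 (by positivity)
    have k5 : 3 * (gg N : ℝ) + 1 ≤ ell ^ 4 / 2 * ell ^ (2 * b + 2) := by
      have q1 : 3 * (gg N : ℝ) + 1 ≤ ell := by linarith
      have q2 : ell ≤ ell ^ 4 / 2 := by
        have : 10 * 10 * 10 * ell ≤ ell * ell * ell * ell := by
          have r1 : 10 * 10 ≤ ell * ell := by nlinarith
          have r2 : 10 * 10 * 10 ≤ ell * ell * ell := by nlinarith
          exact mul_le_mul_of_nonneg_right r2 hell0.le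
        nlinarith
      have q3 : ell ^ 4 / 2 * 1 ≤ ell ^ 4 / 2 * ell ^ (2 * b + 2) := mul_le_mul_of_nonneg_left hp1 (by positivity)
      linarith
    have k6 : ell ^ (2 * b + 6) = ell ^ 4 * ell ^ (2 * b + 2) := by
      rw [← pow_add]
      congr 1
      ring
    rw [k6]
    linarith
  rw [Lw, ← hell]
  exact Nat.le_floor (by rw [← hell] at key; exact key)

/-- the targets are dense -/
lemma dense (a b : ℕ) (C : ℝ) : ∀ᶠ N : ℕ in atTop, 1 ≤ gg N ∧ ∀ x : ℕ, 1 ≤ x → x ≤ Lw b N → ∀ r : ℕ,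
    (r : ℝ) ≤ C * Real.log x ^ (2 * (a + 1)) → r ≤ gg N := by
  have hsmall := (Real.isLittleO_pow_log_id_atTop (n := 2 * (a + 1))).def
    (show (0 : ℝ) < 1 / (8 * (|C| + 1) * (2 * b + 6) ^ (2 * (a + 1))) by positivity)
  have ht : Tendsto (fun N : ℕ => Real.log (Real.log (N : ℝ))) atTop atTop := Real.tendsto_log_atTop.comp tlog
  filter_upwards [tlog.eventually hsmall, tlog.eventually_ge_atTop 8, ht.eventually_ge_atTop 0] with N h1 h2 h3
  obtain ⟨ell, hell⟩ : ∃ ell, ell = Real.log (N : ℝ) := ⟨_, rfl⟩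
  rw [← hell] at h1 h2 h3
  have hell0 : 0 < ell := by linarith
  simp only [id] at h1
  rw [Real.norm_of_nonneg (by positivity), Real.norm_of_nonneg hell0.le, div_mul_eq_mul_div, one_mul,
    le_div_iff₀ (by positivity)] at h1
  have hg : ell / 8 ≤ (gg N : ℝ) := by
    rw [gg, ← hell]
    have := (Nat.sub_one_lt_floor (ell / 4)).le
    linarith
  refine ⟨?_, fun x hx1 hx2 r hr => ?_⟩
  · have : (1 : ℝ) ≤ gg N := by linarith
    exact_mod_cast this
  · have hx0 : (0 : ℝ) < x := by exact_mod_cast hx1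
    have hlx : Real.log x ≤ (2 * b + 6) * Real.log ell := by
      have k1 : (x : ℝ) ≤ ell ^ (2 * b + 6) := by
        have : (Lw b N : ℝ) ≤ ell ^ (2 * b + 6) := by
          rw [Lw, ← hell]
          exact Nat.floor_le (by positivity)
        exact le_trans (by exact_mod_cast hx2) this
      have k2 := Real.log_le_log hx0 k1
      rw [Real.log_pow] at k2
      push_cast at k2
      exact k2
    have hlx0 : 0 ≤ Real.log (x : ℝ) := Real.log_natCast_nonneg x
    have h4 : Real.log x ^ (2 * (a + 1)) ≤ (2 * b + 6) ^ (2 * (a + 1)) * Real.log ell ^ (2 * (a + 1)) := by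
      rw [← mul_pow]
      exact pow_le_pow_left₀ hlx0 hlx _
    have h5 : C * Real.log x ^ (2 * (a + 1)) ≤
        (|C| + 1) * ((2 * b + 6) ^ (2 * (a + 1)) * Real.log ell ^ (2 * (a + 1))) := by
      calc C * Real.log x ^ (2 * (a + 1)) ≤ (|C| + 1) * Real.log x ^ (2 * (a + 1)) := by
            apply mul_le_mul_of_nonneg_right _ (by positivity)
            have := le_abs_self C
            linarith
        _ ≤ _ := mul_le_mul_of_nonneg_left h4 (by positivity)
    have h6 : (r : ℝ) ≤ gg N := by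
      refine (hr.trans h5).trans ?_
      nlinarith
    exact_mod_cast h6

/-- **the representations** -/
theorem repr (hA : ∀ n, MeasurableSet[ℱ n] (A n))
    (hd : ∀ᵐ ω ∂μ, Tendsto (fun n : ℕ => dens μ ℱ A n ω * Real.log n) atTop (𝓝 1)) (a b : ℕ) :
    ∀ᵐ ω ∂μ, ∀ᶠ N : ℕ in atTop, ∃ u v : ℕ, u ∈ JJ {m | ω ∈ A m} (a + 1) ∧ v ∈ JJ {m | ω ∈ A m} (b + 1) ∧
      u + v = N ∧ u ≠ v ∧ (u : ℝ) ≤ Real.log N ^ (2 * b + 6) := by
  classical
  have hsum : ∑' N : ℕ, μ (FE μ ℱ A a b N) ≠ ∞ := by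
    have h1 : Summable (fun n : ℕ => 1 / (n : ℝ) ^ 2) := Real.summable_one_div_nat_pow.2 (by norm_num)
    have h2 : Summable (fun n : ℕ => μ.real (FE μ ℱ A a b n)) := by
      refine Summable.of_norm_bounded_eventually_nat h1 ?_
      filter_upwards [FE_le (μ := μ) hA a b] with n hn
      rw [Real.norm_of_nonneg measureReal_nonneg]
      exact hn
    have h3 : ∑' n : ℕ, μ (FE μ ℱ A a b n) = ENNReal.ofReal (∑' n : ℕ, μ.real (FE μ ℱ A a b n)) := by
      rw [ENNReal.ofReal_tsum_of_nonneg (fun _ => measureReal_nonneg) h2]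
      congr 1
      funext i
      exact (ofReal_measureReal (measure_ne_top _ _)).symm
    rw [h3]
    exact ENNReal.ofReal_ne_top
  filter_upwards [ae_eventually_notMem hsum, hd, low_ae hA hd, up_ae hA hd] with ω h1 h2 hlow hup
  obtain ⟨n₀, hn₀⟩ := no_VF h2 (show (0 : ℝ) < 1 / 2 by norm_num)
  obtain ⟨S, hS⟩ : ∃ S, S = {m | ω ∈ A m} := ⟨_, rfl⟩
  rw [← hS] at hlow hup ⊢
  have hinf : S.Infinite := infinite_of fun K => by
    obtain ⟨q, hq, hK⟩ := up_inf hup K
    exact ⟨q, hK, hq⟩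
  obtain ⟨C, hC, hT⟩ := Gp_step hinf hup (Gp_JJ hinf hup b) (s := 2) (by norm_num)
  obtain ⟨C', hC', hU⟩ := Gp_JJ hinf hup (a + 1)
  obtain ⟨x₁, hx₁⟩ := eventually_atTop.1 hT
  obtain ⟨x₂, hx₂⟩ := eventually_atTop.1 hU
  obtain ⟨x₃, hx₃⟩ := eventually_atTop.1 (count_small (compl_inf hlow) (b + 1))
  have hgt : Tendsto gg atTop atTop := by
    refine tendsto_nat_floor_atTop.comp ?_
    exact tlog.atTop_div_const (by norm_num)
  filter_upwards [h1, fit b hC, dense a b C', Lw_small b (2 * (n₀ + x₁ + x₃ + 10)), hgt.eventually_ge_atTop (x₂ + 1),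
    tlog.eventually_ge_atTop 1]
    with N g1 g2 g3 g4 g5 g6
  by_contra hcon
  push Not at hcon
  apply g1
  obtain ⟨g3, g3'⟩ := g3
  obtain ⟨D, hD⟩ : ∃ D, D = ⌊C * Real.log N ^ (2 * b + 2)⌋₊ := ⟨_, rfl⟩
  rw [← hD] at g2
  -- the starts of trials
  have hstart : ∀ n, N - Lw b N ≤ n → n < N - 3 * gg N → n ∈ Tr S (JJ S b) 2 →
      ω ∈ WW' A a b N (gg N) (N - Lw b N) (N - 3 * gg N) n := by
    rintro n n1 n2 ⟨n3, n4⟩
    refine ⟨⟨n1, n2⟩, ⟨by rw [hS] at n3; exact n3, ?_, ?_⟩, ?_⟩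
    · rw [hS] at n4
      exact n4
    · have := hx₃ n (by omega)
      rw [hS] at this
      exact this
    · obtain ⟨r, r1, r2, r3⟩ := hx₂ (N - n - gg N - 1) (by omega)
      have r4 := g3' (N - n - gg N - 1) (by omega) (by omega) r r2
      refine ⟨gg N + 1 - r, by omega, by omega, ?_⟩
      refine ⟨by omega, ?_⟩
      rw [hS] at r3
      rwa [show N - (n + (gg N + 1 - r)) = N - n - gg N - 1 + r by omega]
  refine mem_Fb g3 (N - 3 * gg N) ω (Lw b N) (N - Lw b N) (mm N) (by omega) ?_ ?_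
  · rintro n n1 hW (hX | hX)
    · obtain ⟨⟨_, w1⟩, ⟨w2, w3, _⟩, _⟩ := hW
      obtain ⟨r, r1, r2, ⟨r3, r4⟩, r5, r6⟩ := hX
      have w2' : n ∈ S := by rw [hS]; exact w2
      have r5' : n + r ∈ S := by rw [hS]; exact r5
      have hc : Nat.count (· ∈ S) (n + r) = Nat.count (· ∈ S) n + 1 :=
        count_next w2' r1 (fun i i1 i2 => by rw [hS]; exact r6 i i1 i2)
      refine hcon (N - (n + r)) (n + r) ?_ ?_ (by omega) (by omega) |>.not_ge ?_
      · rw [hS]
        exact r4
      · refine ⟨r5', ?_⟩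
        rw [hc]
        have : Nat.count (· ∈ S) n + 2 ∈ JJ S b := by
          rw [hS]
          exact w3
        exact this
      · have k1 : N - (n + r) ≤ Lw b N := by omega
        have k2 : (Lw b N : ℝ) ≤ Real.log N ^ (2 * b + 6) := Nat.floor_le (by positivity)
        exact le_trans (by exact_mod_cast k1) k2
    · obtain ⟨i, i1, _, i3⟩ := hX
      exact hn₀ i (by omega) i3
  · obtain ⟨F, f1, f2⟩ := many (T := Tr S (JJ S b) 2) (x := N - Lw b N) (D := D) (gg N * mm N) (by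
      intro y y1 y2
      obtain ⟨r, r1, r2, r3⟩ := hx₁ y (by omega)
      refine ⟨r, r1, ?_, r3⟩
      rw [hD]
      apply Nat.le_floor
      refine r2.trans ?_
      apply mul_le_mul_of_nonneg_left _ (by linarith)
      apply pow_le_pow_left₀ (Real.log_natCast_nonneg y)
      apply Real.log_le_log
      · have : 0 < y := by omega
        exact_mod_cast this
      · have : y ≤ N := by omega
        exact_mod_cast this)
    rw [← f1]
    apply Finset.card_le_card
    intro n hn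
    obtain ⟨k1, k2, k3⟩ := f2 n hn
    rw [Finset.mem_filter, Finset.mem_Ico]
    exact ⟨⟨by omega, by omega⟩, hstart n (by omega) (by omega) k3⟩

end Pool.Agent.N538.RP
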